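import Mathlib

set_option autoImplicit false

namespace Pool.Agent.Q199.RS

open Filter Topology

section

variable {𝕜 X Y : Type*} [RCLike 𝕜] [NormedAddCommGroup X] [NormedSpace 𝕜 X]
  [NormedAddCommGroup Y] [NormedSpace 𝕜 Y]

/-- `S` is range strongly exposing. -/
def RSE (S : X →L[𝕜] Y) : Prop :=
  ∃ x₀ : X, ‖x₀‖ = 1 ∧ ∀ x : ℕ → X, (∀ n, ‖x n‖ ≤ 1) →
    Tendsto (fun n => ‖S (x n)‖) atTop (𝓝 ‖S‖) →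
    ∃ σ : ℕ → ℕ, StrictMono σ ∧ ∃ l : 𝕜, ‖l‖ = 1 ∧
      Tendsto (fun n => S (x (σ n))) atTop (𝓝 (l • S x₀))

end

/-- The space `K(X, Y)` of compact operators has the BPBp-RSE. -/
def CompactBPBpRSE (𝕜 X Y : Type*) [RCLike 𝕜] [NormedAddCommGroup X] [NormedSpace 𝕜 X]
    [NormedAddCommGroup Y] [NormedSpace 𝕜 Y] : Prop :=
  ∀ ε : ℝ, 0 < ε → ∃ η : ℝ, 0 < η ∧ η < ε ∧ ∀ T : X →L[𝕜] Y, IsCompactOperator T → ‖T‖ = 1 →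
    ∀ x : X, ‖x‖ = 1 → 1 - η < ‖T x‖ →
    ∃ S : X →L[𝕜] Y, RSE S ∧ IsCompactOperator S ∧ ∃ x₀ : X, ‖x₀‖ = 1 ∧ ‖S‖ = 1 ∧ ‖S x₀‖ = 1 ∧
      ‖S - T‖ < ε ∧ ‖x - x₀‖ < ε

/-- `Y` is uniformly convex. -/
def UniformlyConvex (Y : Type*) [NormedAddCommGroup Y] [NormedSpace ℝ Y] : Prop :=
  ∀ ε : ℝ, 0 < ε → ∃ δ : ℝ, 0 < δ ∧ δ < 1 ∧ ∀ y₁ y₂ : Y, ‖y₁‖ = 1 → ‖y₂‖ = 1 →
    1 - δ < ‖y₁ + y₂‖ / 2 → ‖y₁ - y₂‖ < ε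

/-- `Y` is `ℂ`-uniformly convex. -/
def ComplexUniformlyConvex (Y : Type*) [NormedAddCommGroup Y] [NormedSpace ℂ Y] : Prop :=
  ∀ ε : ℝ, 0 < ε → ∃ δ : ℝ, 0 < δ ∧ ∀ y₀ y₁ : Y, (∀ w : ℂ, ‖w‖ = 1 → ‖y₀ + w • y₁‖ ≤ 1) →
    ε < ‖y₁‖ → ‖y₀‖ < 1 - δ

end Pool.Agent.Q199.RS
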