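import Mathlib

set_option autoImplicit false

namespace Pool.Agent.Q199.RS

open Filter Topology
open scoped ENNReal

variable {𝕜 X : Type*} [RCLike 𝕜] [NormedAddCommGroup X] [NormedSpace 𝕜 X]

theorem exists_phase (a : 𝕜) : ∃ w : 𝕜, ‖w‖ = 1 ∧ w * a = (‖a‖ : 𝕜) := by
  rcases eq_or_ne a 0 with h | h
  · exact ⟨1, norm_one, by simp [h]⟩
  · have hn : (‖a‖ : 𝕜) ≠ 0 := by
      have := norm_ne_zero_iff.mpr h
      exact_mod_cast this
    refine ⟨(‖a‖ : 𝕜) * a⁻¹, ?_, ?_⟩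
    · rw [norm_mul, norm_inv, RCLike.norm_ofReal, abs_norm,
        mul_inv_cancel₀ (norm_ne_zero_iff.mpr h)]
    · rw [mul_assoc, inv_mul_cancel₀ h, mul_one]

section

variable (e : StrongDual 𝕜 X ≃ₗᵢ[𝕜] lp (fun _ : ℕ => 𝕜) 1)

/-- the functionals corresponding to the unit vector basis -/
noncomputable def fn (n : ℕ) : StrongDual 𝕜 X := e.symm (lp.single 1 n (1 : 𝕜))

theorem one_pos' : (0 : ℝ) < (1 : ℝ≥0∞).toReal := by norm_num

theorem norm_fn (n : ℕ) : ‖fn e n‖ = 1 := by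
  unfold fn
  rw [e.symm.norm_map, lp.norm_single (by norm_num)]
  exact norm_one

theorem single_eq (n : ℕ) (a : 𝕜) : e.symm (lp.single 1 n a) = a • fn e n := by
  unfold fn
  rw [← map_smul]
  congr 1
  rw [← lp.single_smul, smul_eq_mul, mul_one]

theorem expand (f : StrongDual 𝕜 X) : HasSum (fun n => (e f n) • fn e n) f := by
  have h := lp.hasSum_single (p := 1) (by norm_num) (e f)
  have h2 := h.mapL (e.symm.toContinuousLinearEquiv : lp (fun _ : ℕ => 𝕜) 1 →L[𝕜] StrongDual 𝕜 X)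
  have h3 : (e.symm.toContinuousLinearEquiv : lp (fun _ : ℕ => 𝕜) 1 →L[𝕜] StrongDual 𝕜 X) (e f)
      = f := e.symm_apply_apply f
  rw [h3] at h2
  refine h2.congr_fun ?_
  intro n
  exact (single_eq e n _).symm

theorem eval_sum (f : StrongDual 𝕜 X) (x : X) : HasSum (fun n => e f n * fn e n x) (f x) := by
  have h := (expand e f).mapL (ContinuousLinearMap.apply 𝕜 𝕜 x)
  exact h

theorem sum_norm (f : StrongDual 𝕜 X) : HasSum (fun n => ‖e f n‖) ‖f‖ := by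
  have h := lp.hasSum_norm one_pos' (e f)
  rw [e.norm_map] at h
  simpa using h

theorem fn_le (n : ℕ) (x : X) : ‖fn e n x‖ ≤ ‖x‖ := by
  have h := (fn e n).le_opNorm x
  rwa [norm_fn, one_mul] at h

/-- every vector attains its norm at one of the functionals -/
theorem attain (x : X) : ∃ n, ‖fn e n x‖ = ‖x‖ := by
  rcases eq_or_ne (‖x‖) 0 with h0 | h0
  · refine ⟨0, le_antisymm (fn_le e 0 x) ?_⟩
    rw [h0]; exact norm_nonneg _
  obtain ⟨f, hf1, hf2⟩ := exists_dual_vector 𝕜 x h0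
  by_contra hcon
  push Not at hcon
  have hlt : ∀ n, ‖fn e n x‖ < ‖x‖ := fun n => lt_of_le_of_ne (fn_le e n x) (hcon n)
  have hs := sum_norm e f
  rw [hf1] at hs
  have hne : ∃ n, e f n ≠ 0 := by
    by_contra hall
    push Not at hall
    have h2 : (fun n => ‖e f n‖) = fun _ => 0 := by funext n; rw [hall n, norm_zero]
    rw [h2] at hs
    exact zero_ne_one (hasSum_zero.unique hs)
  obtain ⟨n0, hn0⟩ := hne
  have h1 := (eval_sum e f x).mapL (RCLike.reCLM (K := 𝕜))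
  have h2 : HasSum (fun n => ‖e f n‖ * ‖x‖) (1 * ‖x‖) := hs.mul_right _
  have h3 : (RCLike.reCLM (K := 𝕜)) (f x) = ‖x‖ := by
    rw [hf2]; simp
  rw [h3] at h1
  have hle : ∀ n, (RCLike.reCLM (K := 𝕜)) (e f n * fn e n x) ≤ ‖e f n‖ * ‖x‖ := by
    intro n
    calc (RCLike.reCLM (K := 𝕜)) (e f n * fn e n x) ≤ ‖e f n * fn e n x‖ :=
          RCLike.re_le_norm _
      _ = ‖e f n‖ * ‖fn e n x‖ := norm_mul _ _
      _ ≤ ‖e f n‖ * ‖x‖ := by gcongr; exact fn_le e n x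
  have hlt0 : (RCLike.reCLM (K := 𝕜)) (e f n0 * fn e n0 x) < ‖e f n0‖ * ‖x‖ := by
    calc (RCLike.reCLM (K := 𝕜)) (e f n0 * fn e n0 x) ≤ ‖e f n0 * fn e n0 x‖ :=
          RCLike.re_le_norm _
      _ = ‖e f n0‖ * ‖fn e n0 x‖ := norm_mul _ _
      _ < ‖e f n0‖ * ‖x‖ := by
          apply mul_lt_mul_of_pos_left (hlt n0) (norm_pos_iff.mpr hn0)
  have h4 := hasSum_lt hle hlt0 h1 h2
  rw [one_mul] at h4
  exact lt_irrefl _ h4

theorem norm_two {n m : ℕ} (h : n ≠ m) (a b : 𝕜) (ha : ‖a‖ = 1) (hb : ‖b‖ = 1) :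
    ‖a • fn e n + b • fn e m‖ = 2 := by
  have h1 : a • fn e n + b • fn e m = e.symm (lp.single 1 n a + lp.single 1 m b) := by
    rw [map_add, single_eq, single_eq]
  rw [h1, e.symm.norm_map]
  have h2 := lp.norm_sum_single (E := fun _ : ℕ => 𝕜) one_pos' (fun j => if j = n then a else b)
    {n, m}
  rw [Finset.sum_pair h, Finset.sum_pair h] at h2
  simp only [if_true, if_neg h.symm, ENNReal.toReal_one, Real.rpow_one, ha, hb] at h2
  rw [h2]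
  norm_num

theorem norm_add_sub_sq (z w : 𝕜) : ‖z + w‖ ^ 2 = ‖z‖ ^ 2 + 2 * RCLike.re (z * (starRingEnd 𝕜) w)
    + ‖w‖ ^ 2 := by
  rw [← RCLike.normSq_eq_def', ← RCLike.normSq_eq_def', ← RCLike.normSq_eq_def',
    RCLike.normSq_add]
  ring

/-- There is a norm one vector peaking at one of the functionals. -/
theorem exists_peak [CompleteSpace X] [Nontrivial X] : ∃ (m : ℕ) (x : X) (q : ℝ), ‖x‖ = 1 ∧
    fn e m x = 1 ∧ 0 ≤ q ∧ q < 1 ∧ ∀ n, n ≠ m → ‖fn e n x‖ ≤ q := by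
  have hc : ∀ n, IsClosed {x : X | ‖fn e n x‖ = ‖x‖} :=
    fun n => isClosed_eq (fn e n).continuous.norm continuous_norm
  have hU : ⋃ n, {x : X | ‖fn e n x‖ = ‖x‖} = Set.univ := by
    apply Set.eq_univ_of_forall
    intro x
    obtain ⟨n, hn⟩ := attain e x
    exact Set.mem_iUnion.mpr ⟨n, hn⟩
  obtain ⟨m, y0, hy0⟩ := nonempty_interior_of_iUnion_of_closed hc hU
  obtain ⟨r0, hr0, hball⟩ := Metric.isOpen_iff.mp isOpen_interior y0 hy0
  -- a nonzero centre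
  obtain ⟨y, ρ, hy, hρ0, hρ1, hρ⟩ : ∃ (y : X) (ρ : ℝ), y ≠ 0 ∧ 0 < ρ ∧ ρ ≤ ‖y‖ ∧
      ∀ z : X, ‖z‖ ≤ ρ → ‖fn e m (y + z)‖ = ‖y + z‖ := by
    have hex : ∃ y : X, y ≠ 0 ∧ dist y y0 ≤ r0 / 2 := by
      by_cases h : y0 = 0
      · obtain ⟨v, hv⟩ := exists_ne (0 : X)
        refine ⟨((r0 / 2 / ‖v‖ : ℝ) : 𝕜) • v, ?_, ?_⟩
        · apply smul_ne_zero _ hv
          have : (r0 / 2 / ‖v‖ : ℝ) ≠ 0 := by
            have := norm_pos_iff.mpr hv
            positivity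
          exact_mod_cast this
        · rw [h, dist_zero_right, norm_smul, RCLike.norm_ofReal, abs_of_nonneg (by positivity),
            div_mul_cancel₀ _ (norm_ne_zero_iff.mpr hv)]
      · exact ⟨y0, h, by rw [dist_self]; positivity⟩
    obtain ⟨y, hy, hyd⟩ := hex
    refine ⟨y, min (r0 / 4) ‖y‖, hy, lt_min (by positivity) (norm_pos_iff.mpr hy),
      min_le_right _ _, ?_⟩
    intro z hz
    have hz' : ‖z‖ ≤ r0 / 4 := hz.trans (min_le_left _ _)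
    have hmem : y + z ∈ Metric.ball y0 r0 := by
      rw [Metric.mem_ball]
      calc dist (y + z) y0 ≤ dist (y + z) y + dist y y0 := dist_triangle _ _ _
        _ ≤ r0 / 4 + r0 / 2 := by
            gcongr
            rw [dist_eq_norm, add_sub_cancel_left]
            exact hz'
        _ < r0 := by linarith
    have hin : y + z ∈ {x : X | ‖fn e m x‖ = ‖x‖} := interior_subset (hball hmem)
    exact hin
  have hay : ‖fn e m y‖ = ‖y‖ := by
    have := hρ 0 (by rw [norm_zero]; exact hρ0.le)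
    rwa [add_zero] at this
  have hny : 0 < ‖y‖ := norm_pos_iff.mpr hy
  set a := fn e m y with ha
  have ha0 : a ≠ 0 := norm_pos_iff.mp (by rw [hay]; exact hny)
  refine ⟨m, a⁻¹ • y, 1 - ρ / ‖y‖, ?_, ?_, ?_, ?_, ?_⟩
  · rw [norm_smul, norm_inv, hay, inv_mul_cancel₀ hny.ne']
  · rw [map_smul, smul_eq_mul, ← ha, inv_mul_cancel₀ ha0]
  · rw [sub_nonneg, div_le_one hny]
    exact hρ1
  · have : 0 < ρ / ‖y‖ := by positivity
    linarith
  intro n hnm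
  set b := fn e n y with hb
  obtain ⟨α, hα1, hα2⟩ := exists_phase b
  obtain ⟨β', hβ1, hβ2⟩ := exists_phase a
  set β := -β' with hβ
  have hβn : ‖β‖ = 1 := by rw [hβ, norm_neg, hβ1]
  have hβa : β * a = -(‖a‖ : 𝕜) := by rw [hβ, neg_mul, hβ2]
  have h2 := norm_two e hnm α β hα1 hβn
  obtain ⟨z0, hz0, hz0'⟩ := (α • fn e n + β • fn e m).exists_lt_apply_of_lt_opNorm
    (r := 15 / 8) (by rw [h2]; norm_num)
  obtain ⟨γ, hγ1, hγ2⟩ := exists_phase ((α • fn e n + β • fn e m) z0)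
  set z := γ • z0 with hz
  have hzn : ‖z‖ ≤ 1 := by rw [hz, norm_smul, hγ1, one_mul]; exact hz0.le
  set p := α * fn e n z with hp
  set s := β * fn e m z with hs
  have hps : p + s = (‖(α • fn e n + β • fn e m) z0‖ : 𝕜) := by
    rw [← hγ2, hp, hs, hz, map_smul, map_smul]
    show α * (γ * fn e n z0) + β * (γ * fn e m z0) = γ * (α * fn e n z0 + β * fn e m z0)
    ring
  have hpn : ‖p‖ ≤ 1 := by
    rw [hp, norm_mul, hα1, one_mul]
    exact (fn_le e n z).trans hzn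
  have hsn : ‖s‖ ≤ 1 := by
    rw [hs, norm_mul, hβn, one_mul]
    exact (fn_le e m z).trans hzn
  have hre : 15 / 8 < RCLike.re p + RCLike.re s := by
    have h3 := congrArg RCLike.re hps
    rw [map_add, RCLike.ofReal_re] at h3
    rw [h3]; exact hz0'
  have hpre : 7 / 8 ≤ RCLike.re p := by
    have := (RCLike.re_le_norm s).trans hsn
    linarith
  have hsre : 7 / 8 ≤ RCLike.re s := by
    have := (RCLike.re_le_norm p).trans hpn
    linarith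
  have hρz : ‖((ρ : ℝ) : 𝕜) • z‖ ≤ ρ := by
    rw [norm_smul, RCLike.norm_ofReal, abs_of_pos hρ0]
    calc ρ * ‖z‖ ≤ ρ * 1 := by gcongr
      _ = ρ := mul_one ρ
  have key := hρ _ hρz
  have low : ‖b‖ + 7 / 8 * ρ ≤ ‖fn e n (y + ((ρ : ℝ) : 𝕜) • z)‖ := by
    have h4 : ‖fn e n (y + ((ρ : ℝ) : 𝕜) • z)‖ = ‖(‖b‖ : 𝕜) + ((ρ : ℝ) : 𝕜) * p‖ := by
      rw [← hα2, hp, map_add, map_smul, smul_eq_mul, ← hb]
      have : α * b + ((ρ : ℝ) : 𝕜) * (α * fn e n z) = α * (b + ((ρ : ℝ) : 𝕜) * fn e n z) := by ring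
      rw [this, norm_mul, hα1, one_mul]
    rw [h4]
    refine le_trans ?_ (RCLike.re_le_norm _)
    rw [map_add, RCLike.ofReal_re, RCLike.re_ofReal_mul]
    nlinarith
  have up : ‖fn e m (y + ((ρ : ℝ) : 𝕜) • z)‖ ≤ ‖y‖ - 3 / 8 * ρ := by
    have h4 : ‖fn e m (y + ((ρ : ℝ) : 𝕜) • z)‖ = ‖((ρ : ℝ) : 𝕜) * s + (-(‖a‖ : 𝕜))‖ := by
      rw [← hβa, hs, map_add, map_smul, smul_eq_mul, ← ha]
      have : ((ρ : ℝ) : 𝕜) * (β * fn e m z) + β * a = β * (a + ((ρ : ℝ) : 𝕜) * fn e m z) := by ring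
      rw [this, norm_mul, hβn, one_mul]
    rw [h4]
    have h5 := norm_add_sub_sq (((ρ : ℝ) : 𝕜) * s) (-(‖a‖ : 𝕜))
    have h6 : RCLike.re (((ρ : ℝ) : 𝕜) * s * (starRingEnd 𝕜) (-(‖a‖ : 𝕜))) =
        -(ρ * ‖a‖ * RCLike.re s) := by
      rw [map_neg, RCLike.conj_ofReal, mul_neg, map_neg]
      have : ((ρ : ℝ) : 𝕜) * s * (‖a‖ : 𝕜) = ((ρ * ‖a‖ : ℝ) : 𝕜) * s := by
        push_cast; ring
      rw [this, RCLike.re_ofReal_mul]
    rw [h6, norm_mul, norm_neg, RCLike.norm_ofReal, RCLike.norm_ofReal, abs_norm,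
      abs_of_pos hρ0, hay] at h5
    have h7 : ‖((ρ : ℝ) : 𝕜) * s + (-(‖y‖ : 𝕜))‖ ^ 2 ≤ (‖y‖ - 3 / 8 * ρ) ^ 2 := by
      rw [hay] at h4
      have h8 : (ρ * ‖s‖) ^ 2 ≤ ρ ^ 2 := by
        rw [mul_pow]
        have : ‖s‖ ^ 2 ≤ 1 := pow_le_one₀ (norm_nonneg _) hsn
        nlinarith [sq_nonneg ρ]
      have h9 : ρ * ‖y‖ * (7 / 8) ≤ ρ * ‖y‖ * RCLike.re s := by
        gcongr
      rw [h5]
      nlinarith
    rw [hay]
    exact abs_le_of_sq_le_sq' h7 (by linarith) |>.2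
  have h10 : ‖fn e n (y + ((ρ : ℝ) : 𝕜) • z)‖ ≤ ‖y + ((ρ : ℝ) : 𝕜) • z‖ := fn_le e n _
  rw [← key] at h10
  have h11 : ‖b‖ ≤ ‖y‖ - ρ := by linarith
  rw [map_smul, norm_smul, norm_inv, hay, ← hb]
  calc ‖y‖⁻¹ * ‖b‖ ≤ ‖y‖⁻¹ * (‖y‖ - ρ) := by gcongr
    _ = 1 - ρ / ‖y‖ := by field_simp

end

end Pool.Agent.Q199.RS
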