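import Pool.Agent.Q199.RS.Defs
import Pool.Agent.Q199.RS.Peak

set_option autoImplicit false

namespace Pool.Agent.Q199.RS

open Filter Topology
open scoped ENNReal

section

variable {𝕜 X Y : Type*} [RCLike 𝕜] [NormedAddCommGroup X] [NormedSpace 𝕜 X]
  [NormedAddCommGroup Y] [NormedSpace 𝕜 Y]

/-- `a = ‖a‖ w` with `w` of modulus one -/
theorem exists_phase' (a : 𝕜) : ∃ w : 𝕜, ‖w‖ = 1 ∧ a = (‖a‖ : 𝕜) * w := by
  rcases eq_or_ne a 0 with h | h
  · exact ⟨1, norm_one, by simp [h]⟩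
  · have hn : (‖a‖ : 𝕜) ≠ 0 := by
      have := norm_ne_zero_iff.mpr h
      exact_mod_cast this
    refine ⟨(‖a‖ : 𝕜)⁻¹ * a, ?_, ?_⟩
    · rw [norm_mul, norm_inv, RCLike.norm_ofReal, abs_norm,
        inv_mul_cancel₀ (norm_ne_zero_iff.mpr h)]
    · rw [← mul_assoc, mul_inv_cancel₀ hn, one_mul]

theorem step (u v : Y) (h : ∀ w : 𝕜, ‖w‖ = 1 → ‖u + w • v‖ ≤ 1) (s : 𝕜) (hs : ‖s‖ ≤ 1) :
    ‖u + s • v‖ ≤ 1 := by
  obtain ⟨w, hw, hsw⟩ := exists_phase' s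
  have h0 := norm_nonneg s
  have h1 : u + s • v = ((1 + (‖s‖ : 𝕜)) / 2) • (u + w • v) +
      ((1 - (‖s‖ : 𝕜)) / 2) • (u + (-w) • v) := by
    conv_lhs => rw [hsw]
    module
  have n1 : ‖(1 + (‖s‖ : 𝕜)) / 2‖ = (1 + ‖s‖) / 2 := by
    have : (1 + (‖s‖ : 𝕜)) / 2 = (((1 + ‖s‖) / 2 : ℝ) : 𝕜) := by push_cast; rfl
    rw [this, RCLike.norm_ofReal, abs_of_nonneg (by linarith)]
  have n2 : ‖(1 - (‖s‖ : 𝕜)) / 2‖ = (1 - ‖s‖) / 2 := by
    have : (1 - (‖s‖ : 𝕜)) / 2 = (((1 - ‖s‖) / 2 : ℝ) : 𝕜) := by push_cast; rfl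
    rw [this, RCLike.norm_ofReal, abs_of_nonneg (by linarith)]
  rw [h1]
  refine (norm_add_le _ _).trans ?_
  rw [norm_smul, norm_smul, n1, n2]
  have h2 := h w hw
  have h3 := h (-w) (by rw [norm_neg, hw])
  nlinarith

/-- lower estimate -/
theorem low (u v : Y) (h : ∀ w : 𝕜, ‖w‖ = 1 → ‖u + w • v‖ ≤ 1) (s : 𝕜) (hs : ‖s‖ ≤ 1) (δ : ℝ)
    (hδ0 : 0 ≤ δ) (hδ : 1 - δ ≤ ‖u‖) : 1 - 2 * δ ≤ ‖u + s • v‖ := by
  obtain ⟨w, hw, hsw⟩ := exists_phase' s
  have h0 := norm_nonneg s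
  have h1 : (1 + (‖s‖ : 𝕜)) • u = (u + s • v) + (‖s‖ : 𝕜) • (u + (-w) • v) := by
    conv_rhs => rw [hsw]
    simp only [norm_mul, RCLike.norm_ofReal, abs_norm, hw, mul_one]
    module
  have n1 : ‖(1 + (‖s‖ : 𝕜))‖ = 1 + ‖s‖ := by
    have : (1 + (‖s‖ : 𝕜)) = ((1 + ‖s‖ : ℝ) : 𝕜) := by push_cast; rfl
    rw [this, RCLike.norm_ofReal, abs_of_nonneg (by linarith)]
  have h2 := congrArg norm h1
  rw [norm_smul, n1] at h2
  have h3 := norm_add_le (u + s • v) ((‖s‖ : 𝕜) • (u + (-w) • v))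
  rw [← h2, norm_smul, RCLike.norm_ofReal, abs_norm] at h3
  have h4 := h (-w) (by rw [norm_neg, hw])
  have h5 : ‖s‖ * ‖u + (-w) • v‖ ≤ ‖s‖ * 1 := by gcongr
  nlinarith

theorem comb1 (u v : Y) (h : ∀ w : 𝕜, ‖w‖ = 1 → ‖u + w • v‖ ≤ 1) (a b : 𝕜) (ha : ‖a‖ ≤ 1)
    (hb : ‖b‖ ≤ 1) : ‖a • u + b • v‖ ≤ 1 := by
  rcases le_or_gt ‖b‖ ‖a‖ with hab | hab
  · rcases eq_or_ne a 0 with h0 | h0
    · have hb0 : b = 0 := by
        rw [h0, norm_zero] at hab
        exact norm_le_zero_iff.mp hab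
      rw [h0, hb0, zero_smul, zero_smul, add_zero, norm_zero]
      exact zero_le_one
    · have e1 : a • u + b • v = a • (u + (b / a) • v) := by
        rw [smul_add, smul_smul, mul_div_cancel₀ _ h0]
      have h1 := step u v h (b / a) (by
        rw [norm_div, div_le_one (norm_pos_iff.mpr h0)]
        exact hab)
      rw [e1, norm_smul]
      have := norm_nonneg a
      nlinarith
  · have h0 : b ≠ 0 := by
      intro h0
      rw [h0, norm_zero] at hab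
      exact absurd hab (not_lt.mpr (norm_nonneg _))
    have e1 : a • u + b • v = b • (v + (a / b) • u) := by
      rw [smul_add, smul_smul, mul_div_cancel₀ _ h0, add_comm]
    have hsw : ∀ w : 𝕜, ‖w‖ = 1 → ‖v + w • u‖ ≤ 1 := by
      intro w hw
      have hw0 : w ≠ 0 := by
        intro h1
        rw [h1, norm_zero] at hw
        exact zero_ne_one hw
      have e2 : v + w • u = w • (u + w⁻¹ • v) := by
        rw [smul_add, smul_smul, mul_inv_cancel₀ hw0, one_smul, add_comm]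
      rw [e2, norm_smul, hw, one_mul]
      exact h _ (by rw [norm_inv, hw, inv_one])
    have h1 := step v u hsw (a / b) (by
      rw [norm_div, div_le_one (norm_pos_iff.mpr h0)]
      exact hab.le)
    rw [e1, norm_smul]
    have := norm_nonneg b
    nlinarith

theorem comb (u v : Y) (h : ∀ w : 𝕜, ‖w‖ = 1 → ‖u + w • v‖ ≤ 1) (a b : 𝕜) (r : ℝ)
    (ha : ‖a‖ ≤ r) (hb : ‖b‖ ≤ r) : ‖a • u + b • v‖ ≤ r := by
  have hr0 : 0 ≤ r := (norm_nonneg a).trans ha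
  rcases hr0.eq_or_lt with h0 | h0
  · have ha0 : a = 0 := norm_le_zero_iff.mp (by rw [h0]; exact ha)
    have hb0 : b = 0 := norm_le_zero_iff.mp (by rw [h0]; exact hb)
    rw [ha0, hb0, zero_smul, zero_smul, add_zero, norm_zero]
    exact hr0
  · have hrn : (r : 𝕜) ≠ 0 := by exact_mod_cast h0.ne'
    have e1 : a • u + b • v = (r : 𝕜) • ((a / r) • u + (b / r) • v) := by
      rw [smul_add, smul_smul, smul_smul, mul_div_cancel₀ _ hrn, mul_div_cancel₀ _ hrn]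
    have h1 := comb1 u v h (a / r) (b / r) (by
      rw [norm_div, RCLike.norm_ofReal, abs_of_pos h0, div_le_one h0]; exact ha) (by
      rw [norm_div, RCLike.norm_ofReal, abs_of_pos h0, div_le_one h0]; exact hb)
    rw [e1, norm_smul, RCLike.norm_ofReal, abs_of_pos h0]
    nlinarith

theorem compact_smulRight (f : StrongDual 𝕜 X) (u : Y) :
    IsCompactOperator (f.smulRight u : X →L[𝕜] Y) := by
  have h1 : IsCompactOperator (ContinuousLinearMap.toSpanSingleton 𝕜 u) :=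
    isCompactOperator_of_locallyCompactSpace_rng _
  have h2 := h1.comp_clm f
  exact h2

/-- two unimodular numbers whose midpoint is unimodular are equal -/
theorem mid (l1 l2 l0 : 𝕜) (h1 : ‖l1‖ = 1) (h2 : ‖l2‖ = 1) (h0 : ‖l0‖ = 1)
    (h : l1 + l2 = 2 * l0) : l1 = l2 := by
  have hp := parallelogram_law_with_norm 𝕜 l1 l2
  rw [h, norm_mul, h0, h1, h2] at hp
  have h3 : ‖(2 : 𝕜)‖ = 2 := RCLike.norm_ofNat 2
  rw [h3] at hp
  have h4 : ‖l1 - l2‖ ^ 2 = 0 := by nlinarith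
  have h5 : ‖l1 - l2‖ = 0 := by
    rcases pow_eq_zero_iff (two_ne_zero) |>.mp h4 with h
    exact h
  exact sub_eq_zero.mp (norm_eq_zero.mp h5)

theorem main [CompleteSpace X] [Nontrivial X]
    (e : StrongDual 𝕜 X ≃ₗᵢ[𝕜] lp (fun _ : ℕ => 𝕜) 1) (hB : CompactBPBpRSE 𝕜 X Y)
    (ε₀ : ℝ) (hε₀ : 0 < ε₀) : ∃ δ : ℝ, 0 < δ ∧ ∀ u v : Y,
      (∀ w : 𝕜, ‖w‖ = 1 → ‖u + w • v‖ ≤ 1) → ε₀ < ‖v‖ → ‖u‖ < 1 - δ := by
  obtain ⟨m, x, q, hx, hfx, hq0, hq1, hq⟩ := exists_peak e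
  set f := fn e m with hf
  set g := fn e (m + 1) with hg
  have hgx : ‖g x‖ ≤ q := hq (m + 1) (by omega)
  have hgx1 : ‖g x‖ ≤ 1 := hgx.trans hq1.le
  -- a vector in the kernel of `f`
  obtain ⟨z1, hz1, hz1'⟩ := g.exists_lt_apply_of_lt_opNorm (r := (1 + q) / 2)
    (by rw [hg, norm_fn]; linarith)
  set z := z1 - (f z1) • x with hz
  have hfz : f z = 0 := by
    rw [hz, map_sub, map_smul, hfx, smul_eq_mul, mul_one, sub_self]
  have hfz1 : ‖f z1‖ ≤ 1 := (fn_le e m z1).trans hz1.le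
  have hgz : (1 - q) / 2 < ‖g z‖ := by
    have h1 : g z = g z1 - f z1 * g x := by rw [hz, map_sub, map_smul, smul_eq_mul]
    have h2 : ‖f z1 * g x‖ ≤ q := by
      rw [norm_mul]
      have := norm_nonneg (g x)
      have := norm_nonneg (f z1)
      nlinarith
    have h3 := norm_sub_norm_le (g z1) (f z1 * g x)
    rw [← h1] at h3
    linarith
  have hzn : ‖z‖ ≤ 2 := by
    rw [hz]
    refine (norm_sub_le _ _).trans ?_
    rw [norm_smul, hx, mul_one]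
    linarith
  set ε : ℝ := min ((1 - q) / 4) (ε₀ * (1 - q) / 4) with hε
  have hε0 : 0 < ε := lt_min (by linarith) (by
    have : 0 < 1 - q := by linarith
    positivity)
  have hε1 : ε ≤ (1 - q) / 4 := min_le_left _ _
  have hε2 : ε ≤ ε₀ * (1 - q) / 4 := min_le_right _ _
  obtain ⟨η, hη0, hηε, hη⟩ := hB ε hε0
  have hη1 : η < 1 / 4 := by linarith
  refine ⟨η / 4, by positivity, ?_⟩
  intro u v huv hv
  by_contra hcon
  rw [not_lt] at hcon
  let T : X →L[𝕜] Y := f.smulRight u + g.smulRight v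
  have hT : ∀ y, T y = f y • u + g y • v := fun y => rfl
  have hTc : IsCompactOperator T := (compact_smulRight f u).add (compact_smulRight g v)
  have hTn : ‖T‖ ≤ 1 := by
    apply ContinuousLinearMap.opNorm_le_bound _ zero_le_one
    intro y
    rw [hT, one_mul]
    exact comb u v huv _ _ _ (fn_le e m y) (fn_le e (m + 1) y)
  have hTx : 1 - η / 2 ≤ ‖T x‖ := by
    rw [hT, hfx, one_smul]
    have := low u v huv (g x) hgx1 (η / 4) (by positivity) hcon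
    linarith
  have hTx2 : ‖T x‖ ≤ ‖T‖ := by
    have := T.le_opNorm x
    rwa [hx, mul_one] at this
  set c := ‖T‖ with hc
  have hc0 : 0 < c := by linarith
  let T' : X →L[𝕜] Y := ((c⁻¹ : ℝ) : 𝕜) • T
  have hT' : ∀ y, T' y = ((c⁻¹ : ℝ) : 𝕜) • T y := fun y => rfl
  have hcn : ‖((c⁻¹ : ℝ) : 𝕜)‖ = c⁻¹ := by
    rw [RCLike.norm_ofReal, abs_of_pos (inv_pos.mpr hc0)]
  have hT'n : ‖T'‖ = 1 := by
    show ‖((c⁻¹ : ℝ) : 𝕜) • T‖ = 1
    rw [norm_smul, hcn, ← hc, inv_mul_cancel₀ hc0.ne']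
  have hc1 : 1 ≤ c⁻¹ := by
    rw [one_le_inv₀ hc0]
    exact hTn
  have hT'x : 1 - η < ‖T' x‖ := by
    rw [hT', norm_smul, hcn]
    nlinarith
  obtain ⟨S, hRSE, -, x₀, hx₀, hSn, hSx, hST, hxx⟩ := hη T' (hTc.smul _) hT'n x hx hT'x
  -- perturbations of `x₀` in the kernel of `f`
  have hpert : ∀ y : X, f y = 0 → ‖y‖ ≤ (1 - q) / 2 → ‖x₀ + y‖ ≤ 1 := by
    intro y hy1 hy2
    obtain ⟨n, hn⟩ := attain e (x₀ + y)
    rw [← hn]
    rcases eq_or_ne n m with h | h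
    · rw [h, map_add, ← hf, hy1, add_zero]
      exact (fn_le e m x₀).trans (le_of_eq hx₀)
    · have h1 : fn e n (x₀ + y) = fn e n x - fn e n (x - x₀) + fn e n y := by
        rw [map_add, map_sub]; ring
      rw [h1]
      have h2 := norm_add_le (fn e n x - fn e n (x - x₀)) (fn e n y)
      have h3 := norm_sub_le (fn e n x) (fn e n (x - x₀))
      have h4 := hq n h
      have h5 := fn_le e n (x - x₀)
      have h6 := fn_le e n y
      linarith
  obtain ⟨xs, hxs, hseq⟩ := hRSE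
  have hphase : ∀ p : X, ‖p‖ ≤ 1 → ‖S p‖ = 1 → ∃ l : 𝕜, ‖l‖ = 1 ∧ S p = l • S xs := by
    intro p hp1 hp2
    obtain ⟨σ, -, l, hl, hlim⟩ := hseq (fun _ => p) (fun _ => hp1) (by
      rw [hSn]
      simp only [hp2]
      exact tendsto_const_nhds)
    exact ⟨l, hl, tendsto_nhds_unique tendsto_const_nhds hlim⟩
  have hSle : ∀ p : X, ‖p‖ ≤ 1 → ‖S p‖ ≤ 1 := by
    intro p hp
    have := S.le_opNorm p
    rw [hSn, one_mul] at this
    exact this.trans hp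
  -- `S` vanishes at `z`
  set t : ℝ := (1 - q) / 4 with ht
  have ht0 : 0 < t := by rw [ht]; linarith
  set y : X := (t : 𝕜) • z with hy
  have hfy : f y = 0 := by rw [hy, map_smul, hfz, smul_zero]
  have hyn : ‖y‖ ≤ (1 - q) / 2 := by
    rw [hy, norm_smul, RCLike.norm_ofReal, abs_of_pos ht0]
    nlinarith
  have hp1 := hpert y hfy hyn
  have hp2 := hpert (-y) (by rw [map_neg, hfy, neg_zero]) (by rw [norm_neg]; exact hyn)
  have hs1 := hSle _ hp1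
  have hs2 := hSle _ hp2
  have hsum : S (x₀ + y) + S (x₀ + -y) = (2 : 𝕜) • S x₀ := by
    rw [map_add, map_add, map_neg, two_smul]
    abel
  have hsn : ‖S (x₀ + y) + S (x₀ + -y)‖ = 2 := by
    rw [hsum, norm_smul, hSx, mul_one]
    exact RCLike.norm_ofNat 2
  have htri := norm_add_le (S (x₀ + y)) (S (x₀ + -y))
  have hs1' : ‖S (x₀ + y)‖ = 1 := by linarith
  have hs2' : ‖S (x₀ + -y)‖ = 1 := by linarith
  obtain ⟨l1, hl1, e1⟩ := hphase _ hp1 hs1'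
  obtain ⟨l2, hl2, e2⟩ := hphase _ hp2 hs2'
  obtain ⟨l0, hl0, e0⟩ := hphase x₀ (le_of_eq hx₀) hSx
  have hne : S xs ≠ 0 := by
    intro h
    rw [h, smul_zero] at e0
    rw [e0, norm_zero] at hSx
    exact zero_ne_one hSx
  have hll : l1 + l2 = 2 * l0 := by
    rw [e1, e2, e0, ← add_smul, smul_smul] at hsum
    exact smul_left_injective 𝕜 hne hsum
  have heq := mid l1 l2 l0 hl1 hl2 hl0 hll
  have hSy : S (x₀ + y) = S (x₀ + -y) := by rw [e1, e2, heq]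
  have hSz : S z = 0 := by
    rw [map_add, map_add, map_neg, add_right_inj] at hSy
    have h2 : (2 : 𝕜) • S y = 0 := by
      rw [two_smul]
      nth_rewrite 2 [hSy]
      abel
    have h3 : S y = 0 := (smul_eq_zero.mp h2).resolve_left two_ne_zero
    rw [hy, map_smul] at h3
    have ht1 : (t : 𝕜) ≠ 0 := by exact_mod_cast ht0.ne'
    exact (smul_eq_zero.mp h3).resolve_left ht1
  -- contradiction
  have hTz : ‖T' z‖ = c⁻¹ * (‖g z‖ * ‖v‖) := by
    rw [hT', hT, hfz, zero_smul, zero_add, norm_smul, norm_smul, hcn]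
  have h1 : ‖T' z‖ ≤ ε * 2 := by
    have h2 : T' z = -((S - T') z) := by
      show T' z = -(S z - T' z)
      rw [hSz, zero_sub, neg_neg]
    rw [h2, norm_neg]
    calc ‖(S - T') z‖ ≤ ‖S - T'‖ * ‖z‖ := (S - T').le_opNorm z
      _ ≤ ε * 2 := by gcongr
  have h3 : (1 - q) / 2 * ε₀ < ‖g z‖ * ‖v‖ := by
    have hq2 : 0 < (1 - q) / 2 := by linarith
    exact mul_lt_mul'' hgz hv hq2.le hε₀.le
  have h4 : ‖g z‖ * ‖v‖ ≤ c⁻¹ * (‖g z‖ * ‖v‖) := by
    have : 0 ≤ ‖g z‖ * ‖v‖ := by positivity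
    nlinarith
  rw [hTz] at h1
  linarith

end

/-- the real case -/
theorem real_case {X Y : Type*} [NormedAddCommGroup X] [NormedSpace ℝ X] [CompleteSpace X]
    [NormedAddCommGroup Y] [NormedSpace ℝ Y] [Nontrivial X]
    (e : StrongDual ℝ X ≃ₗᵢ[ℝ] lp (fun _ : ℕ => ℝ) 1) (hB : CompactBPBpRSE ℝ X Y) :
    UniformlyConvex Y := by
  intro ε hε
  obtain ⟨δ, hδ, h⟩ := main e hB (ε / 4) (by positivity)
  refine ⟨min δ (1 / 2), lt_min hδ (by norm_num), lt_of_le_of_lt (min_le_right _ _) (by norm_num),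
    ?_⟩
  intro y₁ y₂ h1 h2 h12
  by_contra hcon
  rw [not_lt] at hcon
  have e1 : ((1 / 2 : ℝ) • (y₁ + y₂)) + ((1 / 2 : ℝ) • (y₁ - y₂)) = y₁ := by module
  have e2 : ((1 / 2 : ℝ) • (y₁ + y₂)) + (-1 : ℝ) • ((1 / 2 : ℝ) • (y₁ - y₂)) = y₂ := by module
  have h3 := h ((1 / 2 : ℝ) • (y₁ + y₂)) ((1 / 2 : ℝ) • (y₁ - y₂)) (by
    intro w hw
    rw [Real.norm_eq_abs] at hw
    rcases eq_or_eq_neg_of_abs_eq hw with hw | hw
    · rw [hw, one_smul, e1, h1]
    · rw [hw, e2, h2]) (by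
    rw [norm_smul]
    norm_num
    linarith)
  rw [norm_smul] at h3
  have h4 : ‖(1 / 2 : ℝ)‖ = 1 / 2 := by norm_num
  rw [h4] at h3
  have h5 : min δ (1 / 2) ≤ δ := min_le_left _ _
  linarith

/-- an infinite-dimensional dual forces a nontrivial space -/
theorem nontrivial_of_equiv {𝕜 X : Type*} [RCLike 𝕜] [NormedAddCommGroup X] [NormedSpace 𝕜 X]
    (e : StrongDual 𝕜 X ≃ₗᵢ[𝕜] lp (fun _ : ℕ => 𝕜) 1) : Nontrivial X := by
  by_contra h
  rw [not_nontrivial_iff_subsingleton] at h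
  have h1 : fn e 0 = 0 := by
    ext x
    rw [Subsingleton.elim x 0, map_zero, map_zero]
  have h2 := norm_fn e 0
  rw [h1, norm_zero] at h2
  exact zero_ne_one h2

end Pool.Agent.Q199.RS
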